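import Pool.Agent.H49.CL.Targets

/-!
Board cl_modules, row UEX: exact on all pairs with types in `R` gives preservation of the chain.
-/

set_option autoImplicit false

open Pool.Agent.H68.BP Pool.Agent.H58.SF Pool.Agent.H53.NR
open Pool.Agent.H57.AR (tp ty Ty)
open Pool.Agent.H57.EQ (Cx)
open Pool.Agent.H44.KR (HB Tyi TpOn)
open Pool.Agent.H44.FB (CptC EmbC)
open Pool.Agent.H72.CH
open Pool.Agent.H49.CL
open Function

namespace Pool.Agent.H97.CL

theorem pf_UEX : T_UEX := by
  intro V ρ σ 𝔹 m lv 𝔸 R hV hLve hPth hRE hEx g hg x y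
  obtain ⟨L, hL⟩ := hPth
  have pl := hV.lev.pl
  rcases Nat.eq_zero_or_pos (lv x y) with h0 | hpos
  · rw [h0]
    exact Nat.zero_le _
  rcases (pl.le x y).lt_or_eq with hlt | heq
  swap
  · have hxy := hV.lev.eq x y heq
    rw [heq, hxy, pl.self]
  set i := lv x y with hi
  obtain ⟨a, b, hab⟩ := hLve i hlt.le
  obtain ⟨e, -, he, hR⟩ := hRE.e
  have hT : lv ((![e a, e b] : Fin 2 → V) 0) ((![e a, e b] : Fin 2 → V) 1) = i := by
    show lv (e a) (e b) = i
    rw [he, hab]
  obtain ⟨z, v, hz0, hz1, hz⟩ := hL i i (fun _ => ![e a, e b]) (fun _ => ![e a, e b]) ![x, y]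
    (fun _ => hT) (fun _ => hT) (by rw [min_self]; exact hi.le)
  have hgx := hEx i hpos hlt g hg
  have step : ∀ p q : V, tp 𝔹 ![p, q] = tp 𝔹 ![e a, e b] → i ≤ lv (g p) (g q) := by
    intro p q hpq
    have h1 : lv p q = i := by
      have h2 := hV.inv ![p, q] ![e a, e b] hpq
      rw [hT] at h2
      exact h2
    refine (hgx p (Set.mem_univ _) q (Set.mem_univ _) ?_).2 h1.ge
    rw [hpq]
    exact hR a b
  have main : ∀ k : ℕ, ∀ hk : k < L + 1, i ≤ lv (g (z 0)) (g (z ⟨k, hk⟩)) := by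
    intro k
    induction k with
    | zero =>
      intro hk
      have h3 : (⟨0, hk⟩ : Fin (L + 1)) = 0 := rfl
      rw [h3, pl.self]
      exact hlt.le
    | succ k ih =>
      intro hk
      have h4 := ih (by omega)
      have hkL : k < L := by omega
      obtain ⟨h5, h6⟩ := hz ⟨k, hkL⟩
      have h7 := step _ _ h5
      have h8 := step _ _ h6
      have h9 : i ≤ lv (g (z 0)) (g (v ⟨k, hkL⟩)) :=
        (le_min h4 h7).trans (pl.ult _ _ _)
      rw [pl.sym] at h8
      exact (le_min h9 h8).trans (pl.ult _ _ _)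
  have h10 := main L (Nat.lt_succ_self L)
  have h11 : z 0 = x := hz0
  have h12 : z ⟨L, Nat.lt_succ_self L⟩ = y := hz1
  rw [h11, h12] at h10
  exact h10

end Pool.Agent.H97.CL
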